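import Pool.Agent.MTF.StmtsB
import Pool.Agent.Helper64_MTA.Ue
import Pool.Agent.Helper64_MTD.Ela

/-! MTF, module PER: persistence of the rational relations of the scaled value at `1/n`. -/

set_option autoImplicit false

namespace Pool.Agent.MTF.H77

open Matrix Polynomial Pool.Agent.MT100 Pool.Agent.MT100G Pool.Agent.MT100A Pool.Agent.MT100D
  Pool.Agent.Helper78_MT Pool.Agent.Helper46_MT

/-- the chain rule -/
theorem chain {σ : Type*} [Fintype σ] [DecidableEq σ] (f : σ → ℂ[X]) (R : MvPolynomial σ ℚ) :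
    Polynomial.derivative (MvPolynomial.aeval f R) =
      ∑ p, MvPolynomial.aeval f (MvPolynomial.pderiv p R) * Polynomial.derivative (f p) := by
  induction R using MvPolynomial.induction_on with
  | C a =>
    rw [MvPolynomial.algHom_C, IsScalarTower.algebraMap_apply ℚ ℂ ℂ[X]]
    simp
  | add p q hp hq =>
    rw [map_add, Polynomial.derivative_add, hp, hq, ← Finset.sum_add_distrib]
    refine Finset.sum_congr rfl fun i _ => ?_
    rw [map_add, map_add, add_mul]
  | mul_X p i hp =>
    rw [map_mul, Polynomial.derivative_mul, hp, MvPolynomial.aeval_X, Finset.sum_mul]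
    have h1 : ∀ j : σ, MvPolynomial.aeval f (MvPolynomial.pderiv j (p * MvPolynomial.X i)) *
        Polynomial.derivative (f j) =
        MvPolynomial.aeval f (MvPolynomial.pderiv j p) * Polynomial.derivative (f j) * f i +
        (if i = j then MvPolynomial.aeval f p * Polynomial.derivative (f i) else 0) := by
      intro j
      rw [MvPolynomial.pderiv_mul, MvPolynomial.pderiv_X, map_add, map_mul, map_mul,
        MvPolynomial.aeval_X]
      by_cases h : i = j
      · subst h
        rw [if_pos rfl, Pi.single_eq_same, map_one]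
        ring
      · rw [if_neg h, Pi.single_eq_of_ne h, map_zero]
        ring
    rw [Finset.sum_congr rfl fun j _ => h1 j, Finset.sum_add_distrib, Finset.sum_ite_eq,
      if_pos (Finset.mem_univ _)]

/-- a monomial of degree `k` as a product of `k` variables -/
theorem mono_prod {σ : Type*} [Fintype σ] [DecidableEq σ] (m : σ →₀ ℕ) (k : ℕ)
    (h : m.degree = k) : ∃ f : Fin k → σ, ∀ v : σ → ℂ, ∏ s, v (f s) = m.prod fun i e => v i ^ e := by
  have hc : (Finsupp.toMultiset m).card = k := by
    rw [Finsupp.card_toMultiset, ← h]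
    rfl
  obtain ⟨l, hl⟩ := Quot.exists_rep (Finsupp.toMultiset m)
  have hl' : (l : Multiset σ) = Finsupp.toMultiset m := hl
  have hlk : l.length = k := by rw [← hc, ← hl', Multiset.coe_card]
  subst hlk
  refine ⟨fun s => l.get s, fun v => ?_⟩
  have h1 : ∏ s : Fin l.length, v (l.get s) = (l.map v).prod := by
    rw [← List.prod_ofFn]
    congr 1
    refine List.ext_getElem ?_ ?_
    · simp
    · intro i h1 h2
      simp
  have h2 : (l.map v).prod = ((Finsupp.toMultiset m).map v).prod := by
    rw [← hl', Multiset.map_coe, Multiset.prod_coe]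
  rw [h1, h2, Finsupp.toMultiset_map, Finsupp.prod_toMultiset,
    Finsupp.prod_mapDomain_index (fun _ => pow_zero _) (fun _ _ _ => pow_add _ _ _)]

/-- a homogeneous polynomial of degree `k` as a combination of products of `k` variables -/
theorem hom_tensor {σ : Type*} [Fintype σ] [DecidableEq σ] (R : MvPolynomial σ ℚ) (k : ℕ)
    (hR : R.IsHomogeneous k) : ∃ c : (Fin k → σ) → ℚ, ∀ v : σ → ℂ,
      ∑ f, (c f : ℂ) * ∏ s, v (f s) = MvPolynomial.aeval v R := by
  classical
  have h1 : ∀ m : R.support, ∃ f : Fin k → σ, ∀ v : σ → ℂ,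
      ∏ s, v (f s) = m.1.prod fun i e => v i ^ e := by
    intro m
    refine mono_prod m.1 k ?_
    have h2 := hR (MvPolynomial.mem_support_iff.1 m.2)
    rw [← h2]
    exact congrArg (fun F => F m.1) Finsupp.degree_eq_weight_one
  choose g hg using h1
  refine ⟨fun f => ∑ m : R.support, if g m = f then R.coeff m.1 else 0, fun v => ?_⟩
  rw [MvPolynomial.aeval_def, MvPolynomial.eval₂_eq]
  rw [← Finset.sum_coe_sort R.support]
  have h3 : ∀ f : Fin k → σ, ((∑ m : R.support, if g m = f then R.coeff m.1 else 0 : ℚ) : ℂ) *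
      ∏ s, v (f s) = ∑ m : R.support, if g m = f then ((R.coeff m.1 : ℚ) : ℂ) * ∏ s, v (f s) else 0 := by
    intro f
    rw [Rat.cast_sum, Finset.sum_mul]
    refine Finset.sum_congr rfl fun m _ => ?_
    split_ifs
    · rfl
    · rw [Rat.cast_zero, zero_mul]
  rw [Finset.sum_congr rfl fun f _ => h3 f, Finset.sum_comm]
  refine Finset.sum_congr rfl fun m _ => ?_
  rw [Finset.sum_ite_eq, if_pos (Finset.mem_univ _), hg m v]
  rfl

theorem hom_scale {σ : Type*} [Fintype σ] [DecidableEq σ] (R : MvPolynomial σ ℚ) (k : ℕ)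
    (hR : R.IsHomogeneous k) (t : ℂ) (v : σ → ℂ) :
    MvPolynomial.aeval (fun p => t * v p) R = t ^ k * MvPolynomial.aeval v R := by
  obtain ⟨c, hc⟩ := hom_tensor R k hR
  rw [← hc, ← hc, Finset.mul_sum]
  refine Finset.sum_congr rfl fun f _ => ?_
  rw [Finset.prod_mul_distrib, Finset.prod_const, Finset.card_univ, Fintype.card_fin]
  ring

theorem sum_comp_eq {σ : Type*} [Fintype σ] [DecidableEq σ] (R : MvPolynomial σ ℚ) (t : ℂ)
    (v : σ → ℂ) (N : ℕ) (hN : R.totalDegree < N) :
    MvPolynomial.aeval (fun p => t * v p) R =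
      ∑ k ∈ Finset.range N, t ^ k *
        MvPolynomial.aeval v (MvPolynomial.homogeneousComponent k R) := by
  have h1 : R = ∑ k ∈ Finset.range N, MvPolynomial.homogeneousComponent k R := by
    conv_lhs => rw [← MvPolynomial.sum_homogeneousComponent R]
    refine Finset.sum_subset (Finset.range_subset_range.2 hN) fun k _ hk => ?_
    rw [Finset.mem_range, not_lt] at hk
    exact MvPolynomial.homogeneousComponent_eq_zero k R hk
  conv_lhs => rw [h1, map_sum]
  refine Finset.sum_congr rfl fun k _ => ?_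
  exact hom_scale _ k (MvPolynomial.homogeneousComponent_isHomogeneous k R) t v

/-- a number `t` which is transcendental over the field generated by the `v p` -/
theorem exists_t {σ : Type*} [Fintype σ] [DecidableEq σ] (v : σ → ℂ) : ∃ t : ℂ, t ≠ 0 ∧
    ∀ R : MvPolynomial σ ℚ, MvPolynomial.aeval (fun p => t * v p) R = 0 →
      ∀ k, MvPolynomial.aeval v (MvPolynomial.homogeneousComponent k R) = 0 := by
  classical
  have hco : Countable (MvPolynomial σ ℚ) :=
    (show Function.Injective (fun R : MvPolynomial σ ℚ => AddMonoidAlgebra.coeff R) from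
      fun a b h => MvPolynomial.ext _ _ fun m => congrArg (fun F : (σ →₀ ℕ) →₀ ℚ => F m) h).countable
  set Q : MvPolynomial σ ℚ → ℂ[X] := fun R => ∑ k ∈ Finset.range (R.totalDegree + 1),
    Polynomial.C (MvPolynomial.aeval v (MvPolynomial.homogeneousComponent k R)) *
      Polynomial.X ^ k with hQ
  have hcount : ({0} ∪ ⋃ R : MvPolynomial σ ℚ, {t : ℂ | Q R ≠ 0 ∧ (Q R).eval t = 0}).Countable := by
    refine (Set.countable_singleton _).union (Set.countable_iUnion fun R => ?_)
    by_cases h : Q R = 0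
    · have : {t : ℂ | Q R ≠ 0 ∧ (Q R).eval t = 0} = ∅ := by
        ext t
        simp [h]
      rw [this]
      exact Set.countable_empty
    · refine ((Q R).roots.toFinset.finite_toSet.countable).mono ?_
      intro t ht
      rw [Finset.mem_coe, Multiset.mem_toFinset, Polynomial.mem_roots h]
      exact ht.2
  have hne : ∃ t : ℂ, t ∉ ({0} ∪ ⋃ R : MvPolynomial σ ℚ, {t : ℂ | Q R ≠ 0 ∧ (Q R).eval t = 0}) := by
    by_contra hcon
    push Not at hcon
    exact not_countable_complex (hcount.mono fun t _ => hcon t)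
  obtain ⟨t, ht⟩ := hne
  rw [Set.mem_union, not_or, Set.mem_iUnion, not_exists] at ht
  refine ⟨t, fun h => ht.1 h, fun R hR k => ?_⟩
  have h1 : (Q R).eval t = 0 := by
    rw [sum_comp_eq R t v (R.totalDegree + 1) (Nat.lt_succ_self _)] at hR
    rw [hQ, Polynomial.eval_finsetSum, ← hR]
    refine Finset.sum_congr rfl fun k _ => ?_
    rw [Polynomial.eval_mul, Polynomial.eval_C, Polynomial.eval_pow, Polynomial.eval_X, mul_comm]
  have h2 : Q R = 0 := by
    by_contra h
    exact ht.2 R ⟨h, h1⟩
  by_cases hk : k < R.totalDegree + 1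
  · have h3 := congrArg (fun P : ℂ[X] => P.coeff k) h2
    simp only [hQ, Polynomial.finsetSum_coeff, Polynomial.coeff_C_mul, Polynomial.coeff_X_pow,
      Polynomial.coeff_zero] at h3
    rw [Finset.sum_eq_single k] at h3
    · rwa [if_pos rfl, mul_one] at h3
    · intro b _ hb
      rw [if_neg (Ne.symm hb), mul_zero]
    · intro h
      exact absurd (Finset.mem_range.2 hk) h
  · rw [MvPolynomial.homogeneousComponent_eq_zero k R (by omega), map_zero]

/-- the two index sets -/
def eqv (d : Type) (k : ℕ) :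
    ((Unit × Fin k → d) × (Unit × Fin k → d)) ≃ (Fin k → d × d) where
  toFun p := fun s => (p.1 ((), s), p.2 ((), s))
  invFun f := (fun s => (f s.2).1, fun s => (f s.2).2)
  left_inv _ := rfl
  right_inv _ := rfl

theorem tensor_sum {d : Type} [Fintype d] [DecidableEq d] {k : ℕ} (c : (Fin k → d × d) → ℚ)
    (M : Matrix d d ℂ) :
    ∑ β : Unit × Fin k → d, ∑ α : Unit × Fin k → d, ((c (eqv d k (β, α)) : ℚ) : ℂ) *
      ∏ s : Unit × Fin k, M (β s) (α s) = ∑ f, (c f : ℂ) * ∏ s, M (f s).1 (f s).2 := by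
  rw [← (eqv d k).sum_comp, Fintype.sum_prod_type]
  refine Finset.sum_congr rfl fun β _ => Finset.sum_congr rfl fun α _ => ?_
  congr 1
  rw [Fintype.prod_prod_type]
  rw [Fintype.prod_unique]
  rfl

variable {d : Type} [Fintype d] [DecidableEq d]

/-- the entries of the curve -/
noncomputable def pm (t : ℂ) (A x B : Matrix d d ℂ) (p : d × d) : ℂ[X] :=
  ∑ b, ∑ a, Polynomial.C (t * A p.1 a * B b p.2) * MT100A.H64.cu x a b

theorem pm_eval (t : ℂ) (A x B : Matrix d d ℂ) (p : d × d) (s : ℂ) :
    (pm t A x B p).eval s = t * (A * ue x s * B) p.1 p.2 := by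
  have h1 : ∀ a b, (MT100A.H64.cu x a b).eval s = ue x s a b := fun a b =>
    congrArg (fun M : Matrix d d ℂ => M a b) (MT100A.H64.cu_eval x s)
  unfold pm
  rw [Polynomial.eval_finsetSum, Matrix.mul_apply, Finset.mul_sum]
  refine Finset.sum_congr rfl fun b _ => ?_
  rw [Polynomial.eval_finsetSum, Matrix.mul_apply, Finset.sum_mul, Finset.mul_sum]
  refine Finset.sum_congr rfl fun a _ => ?_
  rw [Polynomial.eval_mul, Polynomial.eval_C, h1]
  ring

theorem pm_deriv (t : ℂ) (A : Matrix d d ℂ) {x : Matrix d d ℂ} (hx : IsNilpotent x)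
    (B : Matrix d d ℂ) (p : d × d) :
    (Polynomial.derivative (pm t A x B p)).eval 0 = t * (A * x * B) p.1 p.2 := by
  have h1 : ∀ a b, (Polynomial.derivative (MT100A.H64.cu x a b)).eval 0 = x a b := by
    intro a b
    have h2 := congrArg (Polynomial.eval (0 : ℂ)) (MT100A.H64.cu_deriv hx a b)
    rw [one_mul, Polynomial.eval_finsetSum] at h2
    rw [h2]
    have h3 : ∀ k, (MT100A.H64.cu x a k).eval (0 : ℂ) = if a = k then 1 else 0 := by
      intro k
      have h4 := congrArg (fun M : Matrix d d ℂ => M a k) (MT100A.H64.cu_eval x 0)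
      rw [MT100A.H64.ue_zero hx] at h4
      rw [← Matrix.one_apply]
      exact h4
    rw [Finset.sum_congr rfl fun k _ => by rw [Polynomial.eval_smul, h3 k, smul_eq_mul, mul_ite,
      mul_one, mul_zero], Finset.sum_ite_eq, if_pos (Finset.mem_univ _)]
  unfold pm
  rw [Polynomial.derivative_sum, Polynomial.eval_finsetSum, Matrix.mul_apply, Finset.mul_sum]
  refine Finset.sum_congr rfl fun b _ => ?_
  rw [Polynomial.derivative_sum, Polynomial.eval_finsetSum, Matrix.mul_apply, Finset.sum_mul,
    Finset.mul_sum]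
  refine Finset.sum_congr rfl fun a _ => ?_
  rw [Polynomial.derivative_C_mul, Polynomial.eval_mul, Polynomial.eval_C, h1]
  ring

theorem eval_aeval {σ : Type*} (f : σ → ℂ[X]) (R : MvPolynomial σ ℚ) (s : ℂ) :
    (MvPolynomial.aeval f R).eval s = MvPolynomial.aeval (fun p => (f p).eval s) R := by
  have h := MvPolynomial.comp_aeval_apply f ((Polynomial.aeval s).restrictScalars ℚ : ℂ[X] →ₐ[ℚ] ℂ) R
  simp only [AlgHom.restrictScalars_apply, Polynomial.coe_aeval_eq_eval] at h
  exact h

/-- PER, core: if the relation holds on the whole curve -/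
theorem core (t : ℂ) (A : Matrix d d ℂ) {x : Matrix d d ℂ} (hx : IsNilpotent x)
    (B : Matrix d d ℂ) (R : MvPolynomial (d × d) ℚ)
    (h : ∀ s : ℂ, MvPolynomial.aeval (fun p : d × d => t * (A * ue x s * B) p.1 p.2) R = 0) :
    ∑ p : d × d, MvPolynomial.aeval (fun p : d × d => t * (A * B) p.1 p.2)
      (MvPolynomial.pderiv p R) * (t * (A * x * B) p.1 p.2) = 0 := by
  have h1 : MvPolynomial.aeval (pm t A x B) R = 0 := by
    apply Polynomial.funext
    intro s
    rw [eval_aeval, Polynomial.eval_zero, ← h s]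
    congr 2
    funext p
    exact pm_eval t A x B p s
  have h2 := chain (pm t A x B) R
  rw [h1, Polynomial.derivative_zero] at h2
  have h3 := congrArg (Polynomial.eval (0 : ℂ)) h2
  rw [Polynomial.eval_zero, Polynomial.eval_finsetSum] at h3
  rw [h3]
  refine Finset.sum_congr rfl fun p _ => ?_
  rw [Polynomial.eval_mul, pm_deriv t A hx B p, eval_aeval]
  congr 2
  congr 1
  funext q
  rw [pm_eval, MT100A.H64.ue_zero hx, Matrix.mul_one]

/-- PER -/
theorem per (hnma : NmaDStmt) (hvag : VagDStmt) : PerStmt := by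
  intro d _ _ F
  obtain ⟨D, hD⟩ := hnma d F
  have ht : ∀ n : ℕ, ∃ t : ℂ, t ≠ 0 ∧ ∀ R : MvPolynomial (d × d) ℚ,
      MvPolynomial.aeval (fun p : d × d => t * F.tv D n p.1 p.2) R = 0 →
      ∀ k, MvPolynomial.aeval (fun p : d × d => F.tv D n p.1 p.2)
        (MvPolynomial.homogeneousComponent k R) = 0 := fun n =>
    exists_t fun p : d × d => F.tv D n p.1 p.2
  choose t ht0 ht1 using ht
  refine ⟨D, t, ht0, fun e => ?_⟩
  have hSep : Sep D (fun _ : Unit => D) :=
    ⟨fun _ => le_rfl, fun i j hij => absurd (Subsingleton.elim i j) hij⟩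
  choose n0 hn0 using hD Unit (fun _ => D) hSep
  obtain ⟨n3, hn3⟩ := MT100D.H64.y_value hvag F D
  refine ⟨max n3 ((Finset.range (e + 1)).sup n0), fun n hn R hRe hR x hx => ?_⟩
  have hval := hn3 n (le_trans (le_max_left _ _) hn)
  have hrel : ∀ k < e + 1, ∀ g ∈ F.Zc,
      MvPolynomial.aeval (fun p : d × d => (F.Y ((n : ℂ) - D) * g * F.R n) p.1 p.2)
        (MvPolynomial.homogeneousComponent k R) = 0 := by
    intro k hk g hg
    have hnk : n0 k ≤ n := le_trans (Finset.le_sup (Finset.mem_range.2 hk))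
      (le_trans (le_max_right _ _) hn)
    obtain ⟨c, hc⟩ := hom_tensor (MvPolynomial.homogeneousComponent k R) k
      (MvPolynomial.homogeneousComponent_isHomogeneous k R)
    have h1 := ht1 n R hR k
    rw [← hc, ← tensor_sum c (F.tv D n)] at h1
    have h2 := hn0 k n hnk (fun β α => c (eqv d k (β, α))) h1 (fun _ => g) (fun _ => hg)
    rw [← hc]
    rw [← tensor_sum c (F.Y ((n : ℂ) - D) * g * F.R n)]
    exact h2
  have hall : ∀ g ∈ F.Zc,
      MvPolynomial.aeval (fun p : d × d => t n * (F.Y ((n : ℂ) - D) * g * F.R n) p.1 p.2) R = 0 := by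
    intro g hg
    rw [sum_comp_eq R (t n) (fun p : d × d => (F.Y ((n : ℂ) - D) * g * F.R n) p.1 p.2) (e + 1)
      (Nat.lt_succ_of_le hRe)]
    refine Finset.sum_eq_zero fun k hk => ?_
    rw [hrel k (Finset.mem_range.1 hk) g hg, mul_zero]
  have h := core (t n) (F.Y ((n : ℂ) - D)) hx.1 (F.R n) R fun s => hall _ (hx.2 s)
  obtain ⟨R', hR1, hR2⟩ := MT100D.H64.r_inv F n
  have hinv : (F.R n)⁻¹ = R' := Matrix.inv_eq_right_inv hR1
  have hx' : F.tv D n * ((F.R n)⁻¹ * x * F.R n) = F.Y ((n : ℂ) - D) * x * F.R n := by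
    rw [← hval, hinv]
    calc F.Y ((n : ℂ) - D) * F.R n * (R' * x * F.R n) =
        F.Y ((n : ℂ) - D) * (F.R n * R') * x * F.R n := by simp only [Matrix.mul_assoc]
      _ = F.Y ((n : ℂ) - D) * x * F.R n := by rw [hR1, Matrix.mul_one]
  rw [hx', ← h, hval]

end Pool.Agent.MTF.H77
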